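import Pool.Agent.Helper89.MM.Defs

namespace Helper89.MM

open Module
open scoped commutatorElement

namespace Lcs

theorem three_subgroups {G : Type*} [Group G] (N A B C : Subgroup G) [N.Normal]
    (h1 : ⁅⁅B, C⁆, A⁆ ≤ N) (h2 : ⁅⁅C, A⁆, B⁆ ≤ N) : ⁅⁅A, B⁆, C⁆ ≤ N := by
  have key : ∀ X : Subgroup G, X ≤ N ↔ X.map (QuotientGroup.mk' N) = ⊥ := by
    intro X
    rw [Subgroup.map_eq_bot_iff, QuotientGroup.ker_mk']
  rw [key, Subgroup.map_commutator, Subgroup.map_commutator] at h1 h2 ⊢
  exact Subgroup.commutator_commutator_eq_bot_of_rotate h1 h2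

theorem lcs_comm_top {G : Type*} [Group G] (n : ℕ) : ∀ m : ℕ,
    ⁅(⊤ : Subgroup G).lowerCentralSeries m, (⊤ : Subgroup G).lowerCentralSeries n⁆ ≤
      (⊤ : Subgroup G).lowerCentralSeries (m + n + 1) := by
  induction n with
  | zero =>
    intro m
    exact le_rfl
  | succ n ih =>
    intro m
    rw [Subgroup.lowerCentralSeries_succ (⊤ : Subgroup G) n, Subgroup.commutator_comm]
    apply three_subgroups
    · have h1 := ih (m + 1)
      rw [Subgroup.lowerCentralSeries_succ (⊤ : Subgroup G) m, Subgroup.commutator_comm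
        ((⊤ : Subgroup G).lowerCentralSeries m)] at h1
      have e : m + (n + 1) + 1 = m + 1 + n + 1 := by ring
      rw [e]
      exact h1
    · have h1 := ih m
      have e : m + (n + 1) + 1 = m + n + 1 + 1 := by ring
      rw [e, Subgroup.lowerCentralSeries_succ (⊤ : Subgroup G) (m + n + 1)]
      exact Subgroup.commutator_mono h1 le_rfl

end Lcs

/-- MMB-3 -/
theorem lcs_comm {G : Type*} [Group G] (H : Subgroup G) (m n : ℕ) :
    ⁅H.lowerCentralSeries m, H.lowerCentralSeries n⁆ ≤ H.lowerCentralSeries (m + n + 1) := by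
  rw [← Subgroup.top_subtype_lowerCentralSeries H m, ← Subgroup.top_subtype_lowerCentralSeries H n,
    ← Subgroup.top_subtype_lowerCentralSeries H (m + n + 1), ← Subgroup.map_commutator]
  exact Subgroup.map_mono (Lcs.lcs_comm_top n m)

end Helper89.MM
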