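import Mathlib

/-!
Definitions for the barrier theorem on simultaneous triple products in groups with a normal solvable
subgroup of bounded exponent and bounded derived length.
-/

namespace Helper89.MM

/-- Span of the products of elements `ι g - 1` whose total weight is at least `w`;
an element `g ∈ E i` may be used with weight `ω i`. -/
def Filt (F : Type*) [Field F] {G : Type*} [Group G] {A : Type*} [Ring A] [Algebra F A]
    (ι : G →* A) (E : ℕ → Subgroup G) (ω : ℕ → ℕ) (w : ℕ) : Submodule F A :=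
  Submodule.span F {x | ∃ l : List (ℕ × G), (∀ q ∈ l, q.2 ∈ E q.1) ∧
    w ≤ (l.map fun q => ω q.1).sum ∧ x = (l.map fun q => ι q.2 - 1).prod}

/-- The span of all `x u` with `x ∈ X` and `u ∈ U`. -/
def app {F V : Type*} [Field F] [AddCommGroup V] [Module F V]
    (X : Submodule F (Module.End F V)) (U : Submodule F V) : Submodule F V :=
  Submodule.span F {v | ∃ x ∈ X, ∃ u ∈ U, v = x u}

/-- The bracket filtration: elements of the `i`-th term of the lower central series
(starting with `i = 0`) have weight `2 i + 1`. -/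
def JJ {F G V : Type*} [Field F] [Group G] [AddCommGroup V] [Module F V]
    (ι : G →* Module.End F V) (H : Subgroup G) (w : ℕ) : Submodule F (Module.End F V) :=
  Filt F ι H.lowerCentralSeries (fun i => 2 * i + 1) w

/-- The span of the image of a subgroup. -/
def gspan (F : Type*) [Field F] {G : Type*} [Group G] {A : Type*} [Ring A] [Algebra F A]
    (ι : G →* A) (N : Subgroup G) : Submodule F A :=
  Submodule.span F {x | ∃ g ∈ N, x = ι g}

/-- The augmentation space of a subgroup. -/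
def aug (F : Type*) [Field F] {G : Type*} [Group G] {A : Type*} [Ring A] [Algebra F A]
    (ι : G →* A) (N : Subgroup G) : Submodule F A :=
  Submodule.span F {x | ∃ g ∈ N, x = ι g - 1}

/-- A central chain with factors of exponent `p` for the subgroup `M`. -/
structure PChain {G : Type*} [Group G] (p : ℕ) (M : Subgroup G) (E : ℕ → Subgroup G) (L : ℕ) :
    Prop where
  zero : E 0 = M
  last : E L = ⊥
  anti : ∀ i, E (i + 1) ≤ E i
  comm : ∀ i, ⁅E i, M⁆ ≤ E (i + 1)
  pow : ∀ i, ∀ x ∈ E i, x ^ p ∈ E (i + 1)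

/-- A normal chain with elementary abelian `p`-factors that ends in the trivial group. -/
structure NChain {G : Type*} [Group G] (p : ℕ) (K : ℕ → Subgroup G) (t : ℕ) : Prop where
  normal : ∀ i, (K i).Normal
  last : K t = ⊥
  anti : ∀ i, K (i + 1) ≤ K i
  comm : ∀ i, ⁅K i, K i⁆ ≤ K (i + 1)
  pow : ∀ i, ∀ x ∈ K i, x ^ p ∈ K (i + 1)

/-- A normal chain with elementary abelian factors, for primes dividing `e`. -/
structure SChain {G : Type*} [Group G] (e : ℕ) (K : ℕ → Subgroup G) (t : ℕ) : Prop where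
  normal : ∀ i, (K i).Normal
  last : K t = ⊥
  anti : ∀ i, K (i + 1) ≤ K i
  comm : ∀ i, ⁅K i, K i⁆ ≤ K (i + 1)
  pow : ∀ i < t, ∃ p : ℕ, p.Prime ∧ p ∣ e ∧ ∀ x ∈ K i, x ^ p ∈ K (i + 1)

/-- The trilinear form of the group algebra vanishes on the kernels of three linear maps into
spaces of total dimension at most `r`. -/
def SC (F : Type*) [Field F] (G : Type*) [Group G] [Fintype G] (r : ℕ) : Prop :=
  ∃ (r₁ r₂ r₃ : ℕ) (Φ₁ : (G → F) →ₗ[F] (Fin r₁ → F)) (Φ₂ : (G → F) →ₗ[F] (Fin r₂ → F))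
    (Φ₃ : (G → F) →ₗ[F] (Fin r₃ → F)), r₁ + r₂ + r₃ ≤ r ∧
    ∀ x y z : G → F, Φ₁ x = 0 → Φ₂ y = 0 → Φ₃ z = 0 →
      ∑ g, ∑ h, x g * y h * z (g * h)⁻¹ = 0

/-- The simultaneous triple product property of Cohn, Kleinberg, Szegedy and Umans. -/
def STPP {G : Type*} [Group G] {I : Type*} (A B C : I → Finset G) : Prop :=
  ∀ i j k, ∀ a ∈ A i, ∀ a' ∈ A j, ∀ b ∈ B j, ∀ b' ∈ B k, ∀ c ∈ C k, ∀ c' ∈ C i,
    a * a'⁻¹ * b * b'⁻¹ * c * c'⁻¹ = 1 → i = j ∧ j = k ∧ a = a' ∧ b = b' ∧ c = c'

/-- The weighted filtration of the group algebra of a subgroup `M₀`, for the restriction to `M₀` of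
a chain `E`; elements of `E i` have weight `p ^ i`. -/
def FE (p : ℕ) [Fact p.Prime] {G : Type*} [Group G] {A : Type*} [Ring A]
    [Algebra (ZMod p) A] (ι : G →* A) (E : ℕ → Subgroup G) (M₀ : Subgroup G) (w : ℕ) :
    Submodule (ZMod p) A := Filt (ZMod p) ι (fun i => E i ⊓ M₀) (fun i => p ^ i) w

end Helper89.MM
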